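import Pool.Agent.H422R3.T34.Main

/-!
Counting by types of triples.
-/

namespace Pool.Agent.H422R3.T34

open Finset

variable {V H : Type} [Fintype V] [DecidableEq V] [Group H] [Fintype H] [MulAction H V]

/-- number of ordered edges of a given type -/
noncomputable def N (E : Finset (Finset V)) (φ : Fin 3 × H → V) (i j k : Fin 3) : ℕ :=
  ∑ a, ∑ b, ∑ c, ind E (φ (i, a)) (φ (j, b)) (φ (k, c))

omit [Fintype V] [MulAction H V] [Group H] in
lemma N_comm12 (E : Finset (Finset V)) (φ : Fin 3 × H → V) (i j k : Fin 3) :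
    N E φ i j k = N E φ j i k := by
  unfold N
  rw [Finset.sum_comm]
  refine Finset.sum_congr rfl fun a _ => Finset.sum_congr rfl fun b _ =>
    Finset.sum_congr rfl fun c _ => ind_comm12 _ _ _ _

omit [Fintype V] [MulAction H V] [Group H] in
lemma N_comm23 (E : Finset (Finset V)) (φ : Fin 3 × H → V) (i j k : Fin 3) :
    N E φ i j k = N E φ i k j := by
  unfold N
  refine Finset.sum_congr rfl fun a _ => ?_
  rw [Finset.sum_comm]
  refine Finset.sum_congr rfl fun b _ =>
    Finset.sum_congr rfl fun c _ => ind_comm23 _ _ _ _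

omit [MulAction H V] [Group H] in
lemma total (E : Finset (Finset V)) (φ : Fin 3 × H → V) (hφ : Function.Bijective φ) :
    ∑ x, ∑ y, ∑ z, ind E x y z = ∑ i, ∑ j, ∑ k, N E φ i j k := by
  have key : ∀ F : V → ℕ, ∑ x, F x = ∑ i, ∑ a, F (φ (i, a)) := by
    intro F
    rw [← Equiv.sum_comp (Equiv.ofBijective φ hφ), Fintype.sum_prod_type]
    rfl
  unfold N
  rw [key]
  refine Finset.sum_congr rfl fun i _ => ?_
  have h1 : ∀ a, ∑ y, ∑ z, ind E (φ (i, a)) y z =
      ∑ j, ∑ b, ∑ k, ∑ c, ind E (φ (i, a)) (φ (j, b)) (φ (k, c)) := by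
    intro a
    rw [key]
    refine Finset.sum_congr rfl fun j _ => Finset.sum_congr rfl fun b _ => ?_
    rw [key]
  simp_rw [h1]
  rw [Finset.sum_comm]
  refine Finset.sum_congr rfl fun j _ => ?_
  have h2 : ∀ a, ∑ b, ∑ k, ∑ c, ind E (φ (i, a)) (φ (j, b)) (φ (k, c)) =
      ∑ k, ∑ b, ∑ c, ind E (φ (i, a)) (φ (j, b)) (φ (k, c)) := fun a => Finset.sum_comm
  simp_rw [h2]
  rw [Finset.sum_comm]

omit [Fintype V] [MulAction H V] [Group H] in
lemma ind_le (E : Finset (Finset V)) (x y z : V) : ind E x y z ≤ 1 := by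
  unfold ind; split_ifs <;> simp

omit [Fintype V] [MulAction H V] [Group H] in
lemma N_le (E : Finset (Finset V)) (φ : Fin 3 × H → V) (i j k : Fin 3) :
    N E φ i j k ≤ Fintype.card H ^ 3 := by
  unfold N
  calc _ ≤ ∑ _a : H, ∑ _b : H, ∑ _c : H, 1 :=
        Finset.sum_le_sum fun a _ => Finset.sum_le_sum fun b _ => Finset.sum_le_sum fun c _ => ind_le _ _ _ _
    _ = Fintype.card H ^ 3 := by simp; ring

omit [Fintype V] in
lemma N_same (E : Finset (Finset V)) (hE : ∀ e ∈ E, e.card = 3) (hfree : K4Free E)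
    (hinv : Inv H E) (h2 : ∀ a : H, a * a = 1) (hact : ∀ (a : H) (x : V), a • x = x → a = 1)
    (φ : Fin 3 × H → V) (heq : ∀ i a v, φ (i, v * a) = v • φ (i, a)) (i : Fin 3) :
    N E φ i i i = 0 := by
  unfold N
  refine Finset.sum_eq_zero fun a _ => Finset.sum_eq_zero fun b _ => Finset.sum_eq_zero fun c _ => ?_
  unfold ind
  rw [if_neg]
  have hb : φ (i, b) = (b * a⁻¹) • φ (i, a) := by rw [← heq]; simp
  have hc : φ (i, c) = (c * a⁻¹) • φ (i, a) := by rw [← heq]; simp
  rw [hb, hc]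
  exact same_orbit E hE hfree hinv h2 hact _ _ _

omit [Fintype V] in
lemma N_pair (E : Finset (Finset V)) (hE : ∀ e ∈ E, e.card = 3) (hfree : K4Free E)
    (hinv : Inv H E) (h2 : ∀ a : H, a * a = 1) (hact : ∀ (a : H) (x : V), a • x = x → a = 1)
    (φ : Fin 3 × H → V) (hφ : Function.Injective φ)
    (heq : ∀ i a v, φ (i, v * a) = v • φ (i, a)) (i j : Fin 3) (hij : i ≠ j) :
    N E φ i i j + N E φ j j i ≤ (Fintype.card H - 1) * Fintype.card H ^ 2 := by
  classical
  have h1 : ∀ i j : Fin 3, N E φ i i j = ∑ v : H, ∑ a, ∑ b,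
      ind E (φ (i, a)) (v • φ (i, a)) (φ (j, b)) := by
    intro i j
    unfold N
    rw [Finset.sum_comm (s := (univ : Finset H)) (t := (univ : Finset H))
      (f := fun v a => ∑ b, ind E (φ (i, a)) (v • φ (i, a)) (φ (j, b)))]
    refine Finset.sum_congr rfl fun a _ => ?_
    rw [← Equiv.sum_comp (Equiv.mulRight a)]
    refine Finset.sum_congr rfl fun v _ => Finset.sum_congr rfl fun b _ => ?_
    simp only [Equiv.coe_mulRight]
    rw [heq]
  rw [h1 i j, h1 j i, ← Finset.sum_add_distrib]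
  have h3 : ∀ v : H, (∑ a, ∑ b, ind E (φ (i, a)) (v • φ (i, a)) (φ (j, b))) +
      (∑ a, ∑ b, ind E (φ (j, a)) (v • φ (j, a)) (φ (i, b))) ≤
      if v = 1 then 0 else Fintype.card H ^ 2 := by
    intro v
    rw [Finset.sum_comm (f := fun a b => ind E (φ (j, a)) (v • φ (j, a)) (φ (i, b)))]
    rw [← Finset.sum_add_distrib]
    simp_rw [← Finset.sum_add_distrib]
    split_ifs with hv
    · apply le_of_eq
      refine Finset.sum_eq_zero fun a _ => Finset.sum_eq_zero fun b _ => ?_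
      have z1 : ∀ x y : V, ind E x ((1 : H) • x) y = 0 := by
        intro x y
        unfold ind
        rw [if_neg]
        intro h
        have := hE _ h
        rw [one_smul, Finset.insert_eq_of_mem (by simp)] at this
        have := Finset.card_le_two (a := x) (b := y)
        omega
      rw [hv, z1, z1, add_zero]
    · calc _ ≤ ∑ _a : H, ∑ _b : H, 1 := by
            refine Finset.sum_le_sum fun a _ => Finset.sum_le_sum fun b _ => ?_
            apply pair_orbits E hfree hinv h2 hact _ _ v hv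
            intro w hw
            rw [← heq] at hw
            have := hφ hw
            exact hij (congrArg Prod.fst this)
        _ = Fintype.card H ^ 2 := by simp; ring
  calc _ ≤ ∑ v : H, (if v = 1 then 0 else Fintype.card H ^ 2) := Finset.sum_le_sum fun v _ => h3 v
    _ = (Fintype.card H - 1) * Fintype.card H ^ 2 := by
      rw [Finset.sum_ite, Finset.sum_const_zero, zero_add, Finset.sum_const, smul_eq_mul]
      congr 1
      rw [Finset.filter_ne' univ (1 : H), Finset.card_erase_of_mem (Finset.mem_univ _), Finset.card_univ]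

/-- main bound -/
theorem bound (E : Finset (Finset V)) (hE : ∀ e ∈ E, e.card = 3) (hfree : K4Free E)
    (hinv : Inv H E) (h2 : ∀ a : H, a * a = 1) (hact : ∀ (a : H) (x : V), a • x = x → a = 1)
    (φ : Fin 3 × H → V) (hφ : Function.Bijective φ)
    (heq : ∀ i a v, φ (i, v * a) = v • φ (i, a)) :
    6 * E.card ≤ 9 * ((Fintype.card H - 1) * Fintype.card H ^ 2) + 6 * Fintype.card H ^ 3 := by
  rw [← six_card E hE, total E φ hφ]
  simp only [Fin.sum_univ_three]
  have s0 := N_same E hE hfree hinv h2 hact φ heq 0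
  have s1 := N_same E hE hfree hinv h2 hact φ heq 1
  have s2 := N_same E hE hfree hinv h2 hact φ heq 2
  have p01 := N_pair E hE hfree hinv h2 hact φ hφ.injective heq 0 1 (by decide)
  have p02 := N_pair E hE hfree hinv h2 hact φ hφ.injective heq 0 2 (by decide)
  have p12 := N_pair E hE hfree hinv h2 hact φ hφ.injective heq 1 2 (by decide)
  have d := N_le E φ 0 1 2
  have c1 : N E φ 0 1 0 = N E φ 0 0 1 := N_comm23 _ _ _ _ _
  have c2 : N E φ 1 0 0 = N E φ 0 0 1 := by rw [N_comm12, c1]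
  have c3 : N E φ 0 2 0 = N E φ 0 0 2 := N_comm23 _ _ _ _ _
  have c4 : N E φ 2 0 0 = N E φ 0 0 2 := by rw [N_comm12, c3]
  have c5 : N E φ 1 0 1 = N E φ 1 1 0 := N_comm23 _ _ _ _ _
  have c6 : N E φ 0 1 1 = N E φ 1 1 0 := by rw [N_comm12, c5]
  have c7 : N E φ 1 2 1 = N E φ 1 1 2 := N_comm23 _ _ _ _ _
  have c8 : N E φ 2 1 1 = N E φ 1 1 2 := by rw [N_comm12, c7]
  have c9 : N E φ 2 0 2 = N E φ 2 2 0 := N_comm23 _ _ _ _ _
  have c10 : N E φ 0 2 2 = N E φ 2 2 0 := by rw [N_comm12, c9]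
  have c11 : N E φ 2 1 2 = N E φ 2 2 1 := N_comm23 _ _ _ _ _
  have c12 : N E φ 1 2 2 = N E φ 2 2 1 := by rw [N_comm12, c11]
  have d1 : N E φ 0 2 1 = N E φ 0 1 2 := N_comm23 _ _ _ _ _
  have d2 : N E φ 1 0 2 = N E φ 0 1 2 := N_comm12 _ _ _ _ _
  have d3 : N E φ 1 2 0 = N E φ 0 1 2 := by rw [N_comm23, d2]
  have d4 : N E φ 2 0 1 = N E φ 0 1 2 := by rw [N_comm12, d1]
  have d5 : N E φ 2 1 0 = N E φ 0 1 2 := by rw [N_comm12, d3]
  omega

end Pool.Agent.H422R3.T34
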