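import Pool.Agent.H422R3.T34.Count

/-!
Turán's construction on `Fin 3 × H`.
-/

namespace Pool.Agent.H422R3.T34

open Finset

variable {H : Type} [DecidableEq H] [Group H] [Fintype H]

/-- vertices of Turán's construction -/
def W (H : Type) : Type := Fin 3 × H

instance : DecidableEq (W H) := inferInstanceAs (DecidableEq (Fin 3 × H))
instance : Fintype (W H) := inferInstanceAs (Fintype (Fin 3 × H))

instance : MulAction H (W H) where
  smul a p := (p.1, a * p.2)
  one_smul p := by
    change (p.1, 1 * p.2) = p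
    rw [one_mul]; rfl
  mul_smul a b p := by
    change (p.1, (a * b) * p.2) = (p.1, a * (b * p.2))
    rw [mul_assoc]

/-- number of elements of `e` in part `i` -/
def cnt (i : Fin 3) (e : Finset (W H)) : ℕ := (e.filter fun p => p.1 = i).card

/-- one vertex in each part, or two in a part and one in the next part -/
def good (c : Fin 3 → ℕ) : Prop := (∀ i, c i = 1) ∨ ∃ i, c i = 2 ∧ c (i + 1) = 1

instance (c : Fin 3 → ℕ) : Decidable (good c) := by unfold good; infer_instance

/-- edges of Turán's construction -/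
def E₀ (H : Type) [DecidableEq H] [Fintype H] : Finset (Finset (W H)) :=
  (univ.powersetCard 3).filter fun e => good (fun i => cnt i e)

omit [Group H] [Fintype H] in
lemma cnt_triple (x y z : W H) (hxy : x ≠ y) (hxz : x ≠ z) (hyz : y ≠ z) (i : Fin 3) :
    cnt i ({x, y, z} : Finset (W H)) =
      (if x.1 = i then 1 else 0) + (if y.1 = i then 1 else 0) + (if z.1 = i then 1 else 0) := by
  unfold cnt
  rw [Finset.card_filter, Finset.sum_insert (by simp [hxy, hxz]), Finset.sum_insert (by simp [hyz]),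
    Finset.sum_singleton]
  ring

/-- type condition -/
def ty (i j k : Fin 3) : Prop :=
  good (fun l => (if i = l then 1 else 0) + (if j = l then 1 else 0) + (if k = l then 1 else 0))

instance (i j k : Fin 3) : Decidable (ty i j k) := by unfold ty; infer_instance

omit [Group H] in
lemma mem_E₀ (x y z : W H) (hxy : x ≠ y) (hxz : x ≠ z) (hyz : y ≠ z) :
    ({x, y, z} : Finset (W H)) ∈ E₀ H ↔ ty x.1 y.1 z.1 := by
  unfold E₀ ty
  rw [Finset.mem_filter, Finset.mem_powersetCard]
  have h3 : ({x, y, z} : Finset (W H)).card = 3 := Finset.card_eq_three.mpr ⟨x, y, z, hxy, hxz, hyz, rfl⟩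
  simp only [Finset.subset_univ, h3, true_and]
  have : (fun i => cnt i ({x, y, z} : Finset (W H))) = fun l => (if x.1 = l then 1 else 0) +
    (if y.1 = l then 1 else 0) + (if z.1 = l then 1 else 0) := by
    funext i; exact cnt_triple x y z hxy hxz hyz i
  rw [this]

lemma ty_free : ∀ i j k l : Fin 3, ¬ (ty i j k ∧ ty i j l ∧ ty i k l ∧ ty j k l) := by decide

omit [Group H] in
lemma E₀_free : K4Free (E₀ H) := by
  intro a b c d hab hac had hbc hbd hcd h
  rw [mem_E₀ _ _ _ hab hac hbc, mem_E₀ _ _ _ hab had hbd, mem_E₀ _ _ _ hac had hcd,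
    mem_E₀ _ _ _ hbc hbd hcd] at h
  exact ty_free _ _ _ _ h

omit [Group H] in
lemma E₀_card : ∀ e ∈ E₀ H, e.card = 3 := by
  intro e he
  exact (Finset.mem_powersetCard.mp (Finset.mem_filter.mp he).1).2

lemma E₀_inv : Inv H (E₀ H) := by
  intro v e he
  obtain ⟨x, y, z, hxy, hxz, hyz, rfl⟩ := Finset.card_eq_three.mp (E₀_card e he)
  have h1 : Finset.image (fun x => v • x) ({x, y, z} : Finset (W H)) = {v • x, v • y, v • z} := by
    simp [Finset.image_insert]
  rw [h1]
  have i1 : v • x ≠ v • y := fun h => hxy (MulAction.injective v h)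
  have i2 : v • x ≠ v • z := fun h => hxz (MulAction.injective v h)
  have i3 : v • y ≠ v • z := fun h => hyz (MulAction.injective v h)
  rw [mem_E₀ _ _ _ i1 i2 i3]
  rw [mem_E₀ _ _ _ hxy hxz hyz] at he
  exact he

omit [Group H] in
lemma ind_E₀ (x y z : W H) (hxy : x ≠ y) (hxz : x ≠ z) (hyz : y ≠ z) (h : ty x.1 y.1 z.1) :
    ind (E₀ H) x y z = 1 := by
  unfold ind
  rw [if_pos ((mem_E₀ x y z hxy hxz hyz).mpr h)]

omit [Group H] in
lemma N_three (i j k : Fin 3) (hij : i ≠ j) (hik : i ≠ k) (hjk : j ≠ k) (h : ty i j k) :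
    Fintype.card H ^ 3 ≤ N (E₀ H) (fun p : Fin 3 × H => (p : W H)) i j k := by
  unfold N
  calc Fintype.card H ^ 3 = ∑ _a : H, ∑ _b : H, ∑ _c : H, 1 := by simp; ring
    _ ≤ _ := by
      refine Finset.sum_le_sum fun a _ => Finset.sum_le_sum fun b _ => Finset.sum_le_sum fun c _ => ?_
      rw [ind_E₀]
      · intro h'; exact hij (congrArg Prod.fst h')
      · intro h'; exact hik (congrArg Prod.fst h')
      · intro h'; exact hjk (congrArg Prod.fst h')
      · exact h

omit [Group H] in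
lemma N_two (i j : Fin 3) (hij : i ≠ j) (h : ty i i j) :
    (Fintype.card H - 1) * Fintype.card H ^ 2 ≤ N (E₀ H) (fun p : Fin 3 × H => (p : W H)) i i j := by
  unfold N
  calc (Fintype.card H - 1) * Fintype.card H ^ 2
      = ∑ a : H, ∑ b : H, ∑ _c : H, (if b ≠ a then 1 else 0) := by
        have : ∀ a : H, ∑ b : H, ∑ _c : H, (if b ≠ a then 1 else 0) =
            (Fintype.card H - 1) * Fintype.card H := by
          intro a
          simp only [Finset.sum_const, smul_eq_mul, Finset.card_univ]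
          rw [← Finset.mul_sum, ← Finset.card_filter, Finset.filter_ne' univ a,
            Finset.card_erase_of_mem (Finset.mem_univ _), Finset.card_univ, mul_comm]
        simp_rw [this]
        rw [Finset.sum_const, smul_eq_mul, Finset.card_univ]
        ring
    _ ≤ _ := by
      refine Finset.sum_le_sum fun a _ => Finset.sum_le_sum fun b _ => Finset.sum_le_sum fun c _ => ?_
      split_ifs with hb
      · rw [ind_E₀]
        · intro h'; exact hb (congrArg Prod.snd h').symm
        · intro h'; exact hij (congrArg Prod.fst h')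
        · intro h'; exact hij (congrArg Prod.fst h')
        · exact h
      · exact Nat.zero_le _

omit [Group H] in
lemma E₀_count : 9 * ((Fintype.card H - 1) * Fintype.card H ^ 2) + 6 * Fintype.card H ^ 3 ≤
    6 * (E₀ H).card := by
  let φ : Fin 3 × H → W H := fun p => p
  rw [← six_card (E₀ H) E₀_card, total (E₀ H) φ Function.bijective_id]
  simp only [Fin.sum_univ_three]
  have p01 : (Fintype.card H - 1) * Fintype.card H ^ 2 ≤ N (E₀ H) φ 0 0 1 :=
    N_two (H := H) 0 1 (by decide) (by decide)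
  have p12 : (Fintype.card H - 1) * Fintype.card H ^ 2 ≤ N (E₀ H) φ 1 1 2 :=
    N_two (H := H) 1 2 (by decide) (by decide)
  have p20 : (Fintype.card H - 1) * Fintype.card H ^ 2 ≤ N (E₀ H) φ 2 2 0 :=
    N_two (H := H) 2 0 (by decide) (by decide)
  have d : Fintype.card H ^ 3 ≤ N (E₀ H) φ 0 1 2 :=
    N_three (H := H) 0 1 2 (by decide) (by decide) (by decide) (by decide)
  have c1 : N (E₀ H) φ 0 1 0 = N (E₀ H) φ 0 0 1 := N_comm23 _ _ _ _ _
  have c2 : N (E₀ H) φ 1 0 0 = N (E₀ H) φ 0 0 1 := by rw [N_comm12, c1]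
  have c7 : N (E₀ H) φ 1 2 1 = N (E₀ H) φ 1 1 2 := N_comm23 _ _ _ _ _
  have c8 : N (E₀ H) φ 2 1 1 = N (E₀ H) φ 1 1 2 := by rw [N_comm12, c7]
  have c9 : N (E₀ H) φ 2 0 2 = N (E₀ H) φ 2 2 0 := N_comm23 _ _ _ _ _
  have c10 : N (E₀ H) φ 0 2 2 = N (E₀ H) φ 2 2 0 := by rw [N_comm12, c9]
  have d1 : N (E₀ H) φ 0 2 1 = N (E₀ H) φ 0 1 2 := N_comm23 _ _ _ _ _
  have d2 : N (E₀ H) φ 1 0 2 = N (E₀ H) φ 0 1 2 := N_comm12 _ _ _ _ _
  have d3 : N (E₀ H) φ 1 2 0 = N (E₀ H) φ 0 1 2 := by rw [N_comm23, d2]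
  have d4 : N (E₀ H) φ 2 0 1 = N (E₀ H) φ 0 1 2 := by rw [N_comm12, d1]
  have d5 : N (E₀ H) φ 2 1 0 = N (E₀ H) φ 0 1 2 := by rw [N_comm12, d3]
  omega

end Pool.Agent.H422R3.T34
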