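import Pool.Agent.H422R3.T34.Ex

/-!
Covering form.
-/

namespace Pool.Agent.H422R3.T34

open Finset MulAction

section coords

variable {X H : Type} [Group H] [MulAction H X]

/-- a free action has coordinates -/
lemma coords (hfree : ∀ (a : H) (x : X), a • x = x → a = 1) :
    Function.Bijective (fun p : orbitRel.Quotient H X × H => p.2 • Quotient.out p.1) := by
  constructor
  · rintro ⟨i, x⟩ ⟨i', x'⟩ h
    simp only at h
    have hi : i = i' := by
      have h1 : (Quotient.mk (orbitRel H X) (x • Quotient.out i)) = i := by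
        have : (Quotient.mk (orbitRel H X) (x • Quotient.out i)) =
            Quotient.mk (orbitRel H X) (Quotient.out i) := Quotient.sound ⟨x, rfl⟩
        rw [this]; exact Quotient.out_eq i
      have h2 : (Quotient.mk (orbitRel H X) (x' • Quotient.out i')) = i' := by
        have : (Quotient.mk (orbitRel H X) (x' • Quotient.out i')) =
            Quotient.mk (orbitRel H X) (Quotient.out i') := Quotient.sound ⟨x', rfl⟩
        rw [this]; exact Quotient.out_eq i'
      rw [← h1, ← h2, h]
    subst hi
    have h3 : (x'⁻¹ * x) • Quotient.out i = Quotient.out i := by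
      rw [mul_smul, h, inv_smul_smul]
    have h4 := hfree _ _ h3
    have h5 := inv_mul_eq_one.mp h4
    rw [h5]
  · intro r
    obtain ⟨x, hx⟩ : ∃ x : H, x • Quotient.out (Quotient.mk (orbitRel H X) r) = r := by
      have h1 : (orbitRel H X) (Quotient.out (Quotient.mk (orbitRel H X) r)) r := Quotient.mk_out r
      obtain ⟨x, hx⟩ := h1
      refine ⟨x⁻¹, ?_⟩
      rw [inv_smul_eq_iff]
      exact hx.symm
    exact ⟨(_, x), hx⟩

end coords

/-- every four vertices span a triple of `G` -/
def Covers {V : Type} [DecidableEq V] (G : Finset (Finset V)) : Prop :=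
  ∀ a b c d : V, a ≠ b → a ≠ c → a ≠ d → b ≠ c → b ≠ d → c ≠ d →
    {a, b, c} ∈ G ∨ {a, b, d} ∈ G ∨ {a, c, d} ∈ G ∨ {b, c, d} ∈ G

lemma choose_three (h : ℕ) (hh : 1 ≤ h) :
    6 * (3 * h).choose 3 = 9 * ((h - 1) * h ^ 2) + 6 * h ^ 3 + 6 * (h * (h - 1) * (2 * h - 1)) := by
  obtain ⟨k, rfl⟩ : ∃ k, h = k + 1 := ⟨h - 1, by omega⟩
  have h1 : 3 * (k + 1) = (3 * k + 2) + 1 := by ring
  have h3 : 6 * (3 * (k + 1)).choose 3 = (3 * (k + 1)) * (3 * (k + 1) - 1) * (3 * (k + 1) - 2) := by
    have := Nat.descFactorial_eq_factorial_mul_choose (3 * (k + 1)) 3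
    simp only [Nat.descFactorial_succ, Nat.descFactorial_zero, Nat.factorial] at this
    norm_num at this
    rw [← this]
    ring
  rw [h3]
  have e1 : 3 * (k + 1) - 1 = 3 * k + 2 := by omega
  have e2 : 3 * (k + 1) - 2 = 3 * k + 1 := by omega
  have e3 : k + 1 - 1 = k := by omega
  have e4 : 2 * (k + 1) - 1 = 2 * k + 1 := by omega
  rw [e1, e2, e3, e4]
  ring

theorem lower {V H : Type} [Fintype V] [DecidableEq V] [Group H] [Fintype H] [MulAction H V]
    (h2 : ∀ a : H, a * a = 1) (hact : ∀ (a : H) (x : V), a • x = x → a = 1)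
    (horb : Nat.card (orbitRel.Quotient H V) = 3) (G : Finset (Finset V))
    (hG : ∀ e ∈ G, e.card = 3) (hcov : Covers G) (hinv : Inv H G) :
    Fintype.card H * (Fintype.card H - 1) * (2 * Fintype.card H - 1) ≤ G.card := by
  classical
  -- coordinates
  have hfin : Finite (orbitRel.Quotient H V) := Nat.finite_of_card_ne_zero (by omega)
  let e : orbitRel.Quotient H V ≃ Fin 3 := Finite.equivFinOfCardEq horb
  let φ : Fin 3 × H → V := fun p => p.2 • Quotient.out (e.symm p.1)
  have hφ : Function.Bijective φ := by
    have h1 := coords (H := H) (X := V) hact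
    have h3 : φ = (fun p : orbitRel.Quotient H V × H => p.2 • Quotient.out p.1) ∘
        (Equiv.prodCongr e.symm (Equiv.refl H)) := by
      funext p; rfl
    rw [h3]
    exact h1.comp (Equiv.bijective _)
  have heq : ∀ i a v, φ (i, v * a) = v • φ (i, a) := by
    intro i a v
    simp only [φ]
    rw [mul_smul]
  have hcardV : Fintype.card V = 3 * Fintype.card H := by
    rw [← Fintype.card_congr (Equiv.ofBijective φ hφ), Fintype.card_prod, Fintype.card_fin]
  set E : Finset (Finset V) := (univ.powersetCard 3) \ G with hEdef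
  have hE : ∀ e ∈ E, e.card = 3 := fun e he => (Finset.mem_powersetCard.mp (Finset.mem_sdiff.mp he).1).2
  have hfree : K4Free E := by
    intro a b c d hab hac had hbc hbd hcd ⟨h1, h3, h4, h5⟩
    rcases hcov a b c d hab hac had hbc hbd hcd with h | h | h | h
    · exact (Finset.mem_sdiff.mp h1).2 h
    · exact (Finset.mem_sdiff.mp h3).2 h
    · exact (Finset.mem_sdiff.mp h4).2 h
    · exact (Finset.mem_sdiff.mp h5).2 h
  have hinvE : Inv H E := by
    intro v s hs
    obtain ⟨hs1, hs2⟩ := Finset.mem_sdiff.mp hs
    refine Finset.mem_sdiff.mpr ⟨Finset.mem_powersetCard.mpr ⟨Finset.subset_univ _, ?_⟩, ?_⟩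
    · rw [Finset.card_image_of_injective _ (MulAction.injective v)]
      exact (Finset.mem_powersetCard.mp hs1).2
    · intro hG'
      have := hinv v⁻¹ _ hG'
      rw [Finset.image_image] at this
      have h6 : ((fun x : V => v⁻¹ • x) ∘ fun x => v • x) = id := by
        funext x; simp
      rw [h6, Finset.image_id] at this
      exact hs2 this
  have hb := bound E hE hfree hinvE h2 hact φ hφ heq
  have hsub : G ⊆ univ.powersetCard 3 := by
    intro s hs
    exact Finset.mem_powersetCard.mpr ⟨Finset.subset_univ _, hG s hs⟩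
  have hcard : E.card + G.card = (3 * Fintype.card H).choose 3 := by
    rw [hEdef, Finset.card_sdiff_add_card_eq_card hsub, Finset.card_powersetCard, Finset.card_univ, hcardV]
  have hch := choose_three (Fintype.card H) Fintype.card_pos
  omega

theorem upper (H : Type) [Group H] [Fintype H] [DecidableEq H] :
    ∃ G : Finset (Finset (W H)), (∀ e ∈ G, e.card = 3) ∧ Covers G ∧ Inv H G ∧
      G.card ≤ Fintype.card H * (Fintype.card H - 1) * (2 * Fintype.card H - 1) := by
  classical
  refine ⟨(univ.powersetCard 3) \ E₀ H, ?_, ?_, ?_, ?_⟩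
  · exact fun e he => (Finset.mem_powersetCard.mp (Finset.mem_sdiff.mp he).1).2
  · intro a b c d hab hac had hbc hbd hcd
    by_contra hcon
    push Not at hcon
    obtain ⟨n1, n2, n3, n4⟩ := hcon
    have key : ∀ x y z : W H, x ≠ y → x ≠ z → y ≠ z →
        ({x, y, z} : Finset (W H)) ∉ (univ.powersetCard 3) \ E₀ H → ({x, y, z} : Finset (W H)) ∈ E₀ H := by
      intro x y z hxy hxz hyz hn
      by_contra h'
      apply hn
      refine Finset.mem_sdiff.mpr ⟨Finset.mem_powersetCard.mpr ⟨Finset.subset_univ _, ?_⟩, h'⟩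
      exact Finset.card_eq_three.mpr ⟨x, y, z, hxy, hxz, hyz, rfl⟩
    exact E₀_free a b c d hab hac had hbc hbd hcd ⟨key _ _ _ hab hac hbc n1, key _ _ _ hab had hbd n2,
      key _ _ _ hac had hcd n3, key _ _ _ hbc hbd hcd n4⟩
  · intro v s hs
    obtain ⟨hs1, hs2⟩ := Finset.mem_sdiff.mp hs
    refine Finset.mem_sdiff.mpr ⟨Finset.mem_powersetCard.mpr ⟨Finset.subset_univ _, ?_⟩, ?_⟩
    · rw [Finset.card_image_of_injective _ (MulAction.injective v)]
      exact (Finset.mem_powersetCard.mp hs1).2
    · intro hG'
      have := E₀_inv v⁻¹ _ hG'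
      rw [Finset.image_image] at this
      have h6 : ((fun x : W H => v⁻¹ • x) ∘ fun x => v • x) = id := by
        funext x; simp
      rw [h6, Finset.image_id] at this
      exact hs2 this
  · have hsub : E₀ H ⊆ univ.powersetCard 3 := Finset.filter_subset _ _
    have h1 := Finset.card_sdiff_add_card_eq_card hsub
    have h2 : (univ.powersetCard 3 : Finset (Finset (W H))).card = (3 * Fintype.card H).choose 3 := by
      rw [Finset.card_powersetCard, Finset.card_univ]
      have : Fintype.card (W H) = 3 * Fintype.card H := by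
        have : Fintype.card (W H) = Fintype.card (Fin 3 × H) := rfl
        rw [this, Fintype.card_prod, Fintype.card_fin]
      rw [this]
    have hch := choose_three (Fintype.card H) Fintype.card_pos
    have hc := E₀_count (H := H)
    rw [h2] at h1
    omega

lemma W_free (H : Type) [Group H] (a : H) (x : W H) (h : a • x = x) : a = 1 := by
  have h1 : a * x.2 = x.2 := congrArg Prod.snd h
  simpa using h1

lemma W_orbits (H : Type) [Group H] [Finite H] : Nat.card (orbitRel.Quotient H (W H)) = 3 := by
  have e : orbitRel.Quotient H (W H) ≃ Fin 3 :=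
    { toFun := Quotient.lift (fun x : W H => x.1) (by
        rintro x y ⟨a, ha⟩
        have := congrArg Prod.fst ha
        exact this.symm)
      invFun := fun i => Quotient.mk _ ((i, (1 : H)) : Fin 3 × H)
      left_inv := by
        intro q
        induction q using Quotient.inductionOn with
        | h x =>
          apply Quotient.sound
          refine ⟨x.2⁻¹, ?_⟩
          exact Prod.ext rfl (inv_mul_cancel x.2)
      right_inv := by
        intro i
        rfl }
  rw [Nat.card_congr e, Nat.card_eq_fintype_card, Fintype.card_fin]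

end Pool.Agent.H422R3.T34
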