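import Mathlib

/-!
3-graphs without `K_4^3` and free actions of elementary abelian 2-groups with three orbits.
-/

namespace Pool.Agent.H422R3.T34

open Finset

variable {V H : Type} [Fintype V] [DecidableEq V] [Group H] [Fintype H] [MulAction H V]

/-- `K_4^3`-free family of triples -/
def K4Free (E : Finset (Finset V)) : Prop :=
  ∀ a b c d : V, a ≠ b → a ≠ c → a ≠ d → b ≠ c → b ≠ d → c ≠ d →
    ¬ ({a, b, c} ∈ E ∧ {a, b, d} ∈ E ∧ {a, c, d} ∈ E ∧ {b, c, d} ∈ E)

/-- adjacency indicator -/
noncomputable def ind (E : Finset (Finset V)) (x y z : V) : ℕ :=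
  if ({x, y, z} : Finset V) ∈ E then 1 else 0

omit [Fintype V] in
lemma ind_comm12 (E : Finset (Finset V)) (x y z : V) : ind E x y z = ind E y x z := by
  unfold ind; rw [Finset.insert_comm]

omit [Fintype V] in
lemma ind_comm23 (E : Finset (Finset V)) (x y z : V) : ind E x y z = ind E x z y := by
  unfold ind
  rw [show ({x, y, z} : Finset V) = {x, z, y} by rw [Finset.pair_comm]]

/-- the number of ordered triples is six times the number of edges -/
lemma six_card (E : Finset (Finset V)) (hE : ∀ e ∈ E, e.card = 3) :
    ∑ x, ∑ y, ∑ z, ind E x y z = 6 * E.card := by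
  classical
  have h1 : ∑ x, ∑ y, ∑ z, ind E x y z =
      ((univ : Finset (V × V × V)).filter fun p => ({p.1, p.2.1, p.2.2} : Finset V) ∈ E).card := by
    rw [Finset.card_filter, Fintype.sum_prod_type]
    apply Finset.sum_congr rfl
    intro x _
    rw [Fintype.sum_prod_type]
    rfl
  rw [h1]
  have hfib := Finset.card_eq_sum_card_fiberwise
    (s := (univ : Finset (V × V × V)).filter fun p => ({p.1, p.2.1, p.2.2} : Finset V) ∈ E)
    (t := E) (f := fun p : V × V × V => ({p.1, p.2.1, p.2.2} : Finset V))
    (by intro p hp; exact (Finset.mem_filter.mp (Finset.mem_coe.mp hp)).2)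
  rw [hfib]
  have h2 : ∀ e ∈ E, (((univ : Finset (V × V × V)).filter fun p => ({p.1, p.2.1, p.2.2} : Finset V) ∈ E).filter
      fun p => ({p.1, p.2.1, p.2.2} : Finset V) = e).card = 6 := by
    intro e he
    obtain ⟨a, b, c, hab, hac, hbc, rfl⟩ := Finset.card_eq_three.mp (hE e he)
    have h3 : (((univ : Finset (V × V × V)).filter fun p => ({p.1, p.2.1, p.2.2} : Finset V) ∈ E).filter
      fun p => ({p.1, p.2.1, p.2.2} : Finset V) = {a, b, c}) =
      {(a, b, c), (a, c, b), (b, a, c), (b, c, a), (c, a, b), (c, b, a)} := by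
      ext ⟨x, y, z⟩
      simp only [Finset.mem_filter, Finset.mem_univ, true_and, Finset.mem_insert, Finset.mem_singleton,
        Prod.mk.injEq]
      constructor
      · rintro ⟨-, h⟩
        have hx : x ∈ ({a, b, c} : Finset V) := by rw [← h]; simp
        have hy : y ∈ ({a, b, c} : Finset V) := by rw [← h]; simp
        have hz : z ∈ ({a, b, c} : Finset V) := by rw [← h]; simp
        have ha : a ∈ ({x, y, z} : Finset V) := by rw [h]; simp
        have hb : b ∈ ({x, y, z} : Finset V) := by rw [h]; simp
        have hc : c ∈ ({x, y, z} : Finset V) := by rw [h]; simp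
        simp only [Finset.mem_insert, Finset.mem_singleton] at hx hy hz ha hb hc
        rcases hx with rfl | rfl | rfl <;> rcases hy with rfl | rfl | rfl <;>
          rcases hz with rfl | rfl | rfl <;>
          first
          | (simp; done)
          | (exact absurd rfl hab)
          | (exact absurd rfl hac)
          | (exact absurd rfl hbc)
          | (exfalso; rcases ha with p | p | p <;> rcases hb with q | q | q <;>
              rcases hc with r | r | r <;>
              first
              | exact hab (p.trans q.symm)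
              | exact hac (p.trans r.symm)
              | exact hbc (q.trans r.symm))
      · intro h
        have key : ({x, y, z} : Finset V) = {a, b, c} := by
          rcases h with ⟨rfl, rfl, rfl⟩ | ⟨rfl, rfl, rfl⟩ | ⟨rfl, rfl, rfl⟩ | ⟨rfl, rfl, rfl⟩ |
            ⟨rfl, rfl, rfl⟩ | ⟨rfl, rfl, rfl⟩ <;> ext w <;> simp <;> tauto
        exact ⟨by rw [key]; exact he, key⟩
    rw [h3]
    rw [Finset.card_insert_of_notMem, Finset.card_insert_of_notMem, Finset.card_insert_of_notMem,
      Finset.card_insert_of_notMem, Finset.card_insert_of_notMem, Finset.card_singleton] <;>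
      simp [hab, hac, hbc, hab.symm, hac.symm, hbc.symm]
  rw [Finset.sum_congr rfl h2, Finset.sum_const, smul_eq_mul, mul_comm]


/-- invariance of a family of triples -/
def Inv (H : Type) [Group H] [MulAction H V] (E : Finset (Finset V)) : Prop :=
  ∀ (v : H) (e : Finset V), e ∈ E → e.image (fun x => v • x) ∈ E

omit [Fintype V] [Fintype H] in
lemma inv_triple (E : Finset (Finset V)) (hinv : Inv H E) (v : H) (x y z : V)
    (h : ({x, y, z} : Finset V) ∈ E) : ({v • x, v • y, v • z} : Finset V) ∈ E := by
  have := hinv v _ h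
  simpa [Finset.image_insert] using this

omit [Fintype V] [Fintype H] in
/-- no edge inside an orbit -/
lemma same_orbit (E : Finset (Finset V)) (hE : ∀ e ∈ E, e.card = 3) (hfree : K4Free E)
    (hinv : Inv H E) (h2 : ∀ a : H, a * a = 1) (hact : ∀ (a : H) (x : V), a • x = x → a = 1)
    (x : V) (u w : H) : ({x, u • x, w • x} : Finset V) ∉ E := by
  intro h
  have comm : ∀ a b : H, a * b = b * a := by
    intro a b
    have h3 : (a * b)⁻¹ = a * b := inv_eq_of_mul_eq_one_left (h2 (a * b))
    rw [mul_inv_rev, inv_eq_of_mul_eq_one_left (h2 a), inv_eq_of_mul_eq_one_left (h2 b)] at h3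
    exact h3.symm
  have hc := hE _ h
  have hxu : x ≠ u • x := by
    intro h'
    rw [← h'] at hc
    have : ({x, x, w • x} : Finset V).card ≤ 2 := by
      rw [Finset.insert_eq_of_mem (by simp)]; exact Finset.card_le_two
    omega
  have hxw : x ≠ w • x := by
    intro h'
    rw [← h'] at hc
    have : ({x, u • x, x} : Finset V).card ≤ 2 := by
      rw [Finset.pair_comm (u • x) x, Finset.insert_eq_of_mem (by simp)]; exact Finset.card_le_two
    omega
  have huw : u • x ≠ w • x := by
    intro h'
    rw [← h'] at hc
    have : ({x, u • x, u • x} : Finset V).card ≤ 2 := by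
      rw [Finset.pair_eq_singleton]; exact Finset.card_le_two
    omega
  have hne : ∀ a b : H, a • x = b • x → a = b := by
    intro a b hab
    have : (b⁻¹ * a) • x = x := by rw [mul_smul, hab, inv_smul_smul]
    have := hact _ _ this
    exact (inv_mul_eq_one.mp this).symm
  have hu1 : u ≠ 1 := fun h' => hxu (by rw [h', one_smul])
  have hw1 : w ≠ 1 := fun h' => hxw (by rw [h', one_smul])
  have huw' : u ≠ w := fun h' => huw (by rw [h'])
  have k1 : x ≠ (u * w) • x := by
    intro h'
    have := hne 1 (u * w) (by rw [one_smul]; exact h')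
    apply huw'
    have h5 : u = w⁻¹ := eq_inv_of_mul_eq_one_left this.symm
    rw [h5, inv_eq_of_mul_eq_one_left (h2 w)]
  have k2 : u • x ≠ (u * w) • x := by
    intro h'
    have := hne _ _ h'
    exact hw1 (by simpa using this)
  have k3 : w • x ≠ (u * w) • x := by
    intro h'
    have := hne _ _ h'
    exact hu1 (by simpa using this)
  have e2 := inv_triple E hinv u _ _ _ h
  have e3 := inv_triple E hinv w _ _ _ h
  have e4 := inv_triple E hinv (u * w) _ _ _ h
  rw [← mul_smul, ← mul_smul] at e2 e3 e4
  rw [h2 u, one_smul] at e2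
  rw [comm w u, h2 w, one_smul] at e3
  have q1 : u * w * u = w := by rw [comm u w, mul_assoc, h2, mul_one]
  have q2 : u * w * w = u := by rw [mul_assoc, h2, mul_one]
  rw [q1, q2] at e4
  refine hfree x (u • x) (w • x) ((u * w) • x) hxu hxw k1 huw k2 k3 ⟨h, ?_, ?_, ?_⟩
  · rw [Finset.insert_comm] at e2; exact e2
  · have : ({w • x, (u * w) • x, x} : Finset V) = {x, w • x, (u * w) • x} := by
      ext t; simp; tauto
    rw [← this]; exact e3
  · have : ({(u * w) • x, w • x, u • x} : Finset V) = {u • x, w • x, (u * w) • x} := by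
      ext t; simp; tauto
    rw [← this]; exact e4

omit [Fintype V] [Fintype H] in
/-- at most one of the two triples -/
lemma pair_orbits (E : Finset (Finset V)) (hfree : K4Free E)
    (hinv : Inv H E) (h2 : ∀ a : H, a * a = 1) (hact : ∀ (a : H) (x : V), a • x = x → a = 1)
    (x y : V) (v : H) (hv : v ≠ 1) (hxy : ∀ a : H, a • x ≠ y) :
    ind E x (v • x) y + ind E y (v • y) x ≤ 1 := by
  unfold ind
  by_cases h1 : ({x, v • x, y} : Finset V) ∈ E
  · by_cases h3 : ({y, v • y, x} : Finset V) ∈ E
    · exfalso
      have e2 := inv_triple E hinv v _ _ _ h1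
      have e4 := inv_triple E hinv v _ _ _ h3
      rw [← mul_smul, h2, one_smul] at e2 e4
      have n1 : x ≠ v • x := fun h => hv (hact v x h.symm)
      have n2 : x ≠ y := fun h => hxy 1 (by rw [one_smul]; exact h)
      have n3 : x ≠ v • y := by
        intro h
        apply hxy v
        rw [h, ← mul_smul, h2, one_smul]
      have n4 : v • x ≠ y := hxy v
      have n5 : v • x ≠ v • y := by
        intro h
        exact n2 (MulAction.injective v h)
      have n6 : y ≠ v • y := fun h => hv (hact v y h.symm)
      refine hfree x (v • x) y (v • y) n1 n2 n3 n4 n5 n6 ⟨h1, ?_, ?_, ?_⟩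
      · rw [Finset.insert_comm] at e2; exact e2
      · have : ({y, v • y, x} : Finset V) = {x, y, v • y} := by ext t; simp; tauto
        rw [← this]; exact h3
      · have : ({v • y, y, v • x} : Finset V) = {v • x, y, v • y} := by ext t; simp; tauto
        rw [← this]; exact e4
    · simp [h1, h3]
  · by_cases h3 : ({y, v • y, x} : Finset V) ∈ E
    · simp [h1, h3]
    · simp [h1, h3]

end Pool.Agent.H422R3.T34
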